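import Mathlib
import Pool.Agent.H47.QuadAll

namespace Pool.Agent.Results.MP_28a92f_nt.Connected

/-- the underlying undirected graph of the functional graph of `x ↦ x ^ 2 + a` on `ZMod p` -/
def G (p : ℕ) (a : ZMod p) : SimpleGraph (ZMod p) := SimpleGraph.fromRel fun x y => y = x ^ 2 + a

open Pool.Agent.H47.Quad in
theorem cast_it (d y : ℕ) : ((f^[d] y : ℕ) : ZMod 1113643) =
    (fun x : ZMod 1113643 => x ^ 2 + 278411)^[d] (y : ZMod 1113643) := by
  induction d with
  | zero => rfl
  | succ d ih =>
    rw [Function.iterate_succ_apply', Function.iterate_succ_apply', ← ih]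
    generalize f^[d] y = z
    have e : f z = (z * z + 278411) % 1113643 := rfl
    rw [e, ZMod.natCast_mod]
    push_cast
    ring

theorem reach (x : ZMod 1113643) :
    ∃ d, (fun x : ZMod 1113643 => x ^ 2 + 278411)^[d] x = 556822 := by
  obtain ⟨d, hd⟩ := Pool.Agent.H47.Quad.all_reach Pool.Agent.H47.Quad.total x.val (ZMod.val_lt x)
  refine ⟨d, ?_⟩
  have := cast_it d x.val
  rw [hd, ZMod.natCast_zmod_val] at this
  rw [← this]
  norm_num

theorem result : ∃ (p : ℕ) (a : ZMod p), p.Prime ∧ 7 < p ∧ (G p a).Connected ∧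
    ∃ c : ZMod p, c ^ 2 + a = c ∧
      ∀ x : ZMod p, x ∈ Function.periodicPts (fun y : ZMod p => y ^ 2 + a) → x = c := by
  have fx : (556822 : ZMod 1113643) ^ 2 + 278411 = 556822 := by decide +kernel
  have step : ∀ d (x : ZMod 1113643), (G 1113643 278411).Reachable x
      ((fun x : ZMod 1113643 => x ^ 2 + 278411)^[d] x) := by
    intro d x
    induction d with
    | zero => exact SimpleGraph.Reachable.refl _
    | succ d ih =>
      rw [Function.iterate_succ_apply']
      generalize (fun x : ZMod 1113643 => x ^ 2 + 278411)^[d] x = y at ih ⊢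
      by_cases h : y = y ^ 2 + 278411
      · rw [← h]; exact ih
      · exact ih.trans (SimpleGraph.Adj.reachable
          ((SimpleGraph.fromRel_adj _ _ _).2 ⟨h, Or.inl rfl⟩))
  refine ⟨1113643, 278411, by norm_num, by norm_num, ⟨fun x y => ?_⟩, 556822, fx, fun x hx => ?_⟩
  · obtain ⟨d, hd⟩ := reach x
    obtain ⟨e, he⟩ := reach y
    have h1 := step d x
    have h2 := step e y
    rw [hd] at h1
    rw [he] at h2
    exact h1.trans h2.symm
  · obtain ⟨n, hn, hp⟩ := hx
    obtain ⟨d, hd⟩ := reach x
    have h1 := (hp.mul_const d).eq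
    obtain ⟨m, hm⟩ : ∃ m, n * d = m + d := ⟨n * d - d, by
      have := Nat.le_mul_of_pos_left d hn; omega⟩
    rw [hm, Function.iterate_add_apply, hd, Function.iterate_fixed fx] at h1
    exact h1.symm

end Pool.Agent.Results.MP_28a92f_nt.Connected
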